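import Pool.Agent.Helper27.RV.StL

/-!
Project RV (MP_60edf5_lc), module TKK: the value of `κ` is at most `2 ^ κ`.
-/

set_option autoImplicit false

open Cardinal Ordinal Set Filter

universe u

namespace Pool.Agent.Helper64.RV

open Pool.Agent.Helper27.RV Pool.Agent.Helper36.VC Pool.Agent.Helper65.GS

theorem pTKK : StTKK.{u} := by
  classical
  intro X κ W A l f h
  have hk0 : (0 : Ordinal.{u}) < κ.ord := by
    rw [← Cardinal.ord_zero]
    exact Cardinal.ord_lt_ord.2 (aleph0_pos.trans h.unc)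
  let Φ : l.ToType → X → κ.ord.ToType := fun y x =>
    if hx : f y.toOrd x < κ.ord then ToType.mk ⟨f y.toOrd x, hx⟩ else ToType.mk ⟨0, hk0⟩
  have hlt : ∀ a b : Ordinal.{u}, a < b → b < l →
      ¬ ∀ x, ((if hx : f a x < κ.ord then (ToType.mk ⟨f a x, hx⟩ : κ.ord.ToType)
        else ToType.mk ⟨0, hk0⟩)
        = if hx : f b x < κ.ord then ToType.mk ⟨f b x, hx⟩ else ToType.mk ⟨0, hk0⟩) := by
    intro a b hab hb hall
    have h1 := (h.pos.ae (p := fun x => f a x < κ.ord ∧ f b x < κ.ord ∧ f a x < f b x)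
      (by
        filter_upwards [h.rep.bd a (hab.trans hb), h.rep.bd b hb, h.rep.inc a b hab hb]
          with x h1 h2 h3 hx
        exact ⟨h1 hx, h2 hx, h3 hx⟩)).nonempty
    obtain ⟨x, -, hx1, hx2, hx3⟩ := h1
    have h4 := hall x
    rw [dif_pos hx1, dif_pos hx2] at h4
    have h5 := ToType.mk.injective h4
    exact hx3.ne (congrArg Subtype.val h5)
  have hinj : Function.Injective Φ := by
    intro y y' hy
    have hy' : ∀ x, Φ y x = Φ y' x := fun x => congrFun hy x
    rcases lt_trichotomy (y.toOrd : Ordinal.{u}) y'.toOrd with hc | hc | hc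
    · exact absurd (fun x => hy' x) (hlt _ _ hc y'.toOrd.2)
    · exact ToType.mk.symm.injective (Subtype.ext hc)
    · exact absurd (fun x => (hy' x).symm) (hlt _ _ hc y.toOrd.2)
  have h1 : #l.ToType ≤ #(X → κ.ord.ToType) := Cardinal.mk_le_of_injective hinj
  rw [mk_toType] at h1
  refine h1.trans (le_of_eq ?_)
  rw [← Cardinal.power_def, mk_toType, card_ord, h.card]
  exact Cardinal.power_self_eq h.unc.le

end Pool.Agent.Helper64.RV
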